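import Pool.Agent.H.MP_cfda27_lc.D

set_option autoImplicit false
open FirstOrder FirstOrder.Language

namespace Pool.Agent.Results.MP_cfda27_lc.NotAxiomatizable

/-- Function symbols of `L_0`: `0`, unary `-`, scalar multiplications, `+`, binary `-`, `*`. -/
inductive Fn0 (k : Type) : ℕ → Type
  | zero : Fn0 k 0
  | neg : Fn0 k 1
  | smul (c : k) : Fn0 k 1
  | add : Fn0 k 2
  | sub : Fn0 k 2
  | mul : Fn0 k 2

/-- Function symbols of `L_1`: those of `L_0` and the constant `1`. -/
inductive Fn1 (k : Type) : ℕ → Type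
  | one : Fn1 k 0
  | old {n : ℕ} (f : Fn0 k n) : Fn1 k n

/-- The unary predicate `P`. -/
inductive RelP : ℕ → Type
  | P : RelP 1

def L0 (k : Type) : FirstOrder.Language.{0, 0} := ⟨Fn0 k, RelP⟩
def L1 (k : Type) : FirstOrder.Language.{0, 0} := ⟨Fn1 k, RelP⟩

def interp0 {k F : Type} [Field k] [NonUnitalRing F] [Module k F] :
    {n : ℕ} → Fn0 k n → (Fin n → F) → F
  | _, .zero, _ => 0
  | _, .neg, x => - x 0
  | _, .smul c, x => c • x 0
  | _, .add, x => x 0 + x 1
  | _, .sub, x => x 0 - x 1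
  | _, .mul, x => x 0 * x 1

def interp1 {k F : Type} [Field k] [Ring F] [Algebra k F] :
    {n : ℕ} → Fn1 k n → (Fin n → F) → F
  | _, .one, _ => 1
  | _, .old f, x => interp0 f x

def interpP {F : Type} (A : Set F) : {n : ℕ} → RelP n → (Fin n → F) → Prop
  | _, .P, x => x 0 ∈ A

/-- The pair `(F, A)` as an `L_0 ∪ {P}` structure. -/
@[reducible] def str0 (k : Type) {F : Type} [Field k] [NonUnitalRing F] [Module k F] (A : Set F) :
    (L0 k).Structure F := ⟨interp0, interpP A⟩

/-- The pair `(F, A)` as an `L_1 ∪ {P}` structure. -/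
@[reducible] def str1 (k : Type) {F : Type} [Field k] [Ring F] [Algebra k F] (A : Set F) :
    (L1 k).Structure F := ⟨interp1, interpP A⟩

/-- The free non-unital associative algebra on `X`: the non-unital subalgebra of `k⟨X⟩` generated
by the letters (the span of the nonempty words). -/
abbrev FreePlus (k X : Type) [Field k] : NonUnitalSubalgebra k (FreeAlgebra k X) :=
  NonUnitalAlgebra.adjoin k (Set.range (FreeAlgebra.ι k : X → FreeAlgebra k X))

def IsFree1 (k B : Type) [Field k] [Ring B] [Algebra k B] : Prop :=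
  ∃ X : Type, Nonempty (B ≃ₐ[k] FreeAlgebra k X)

def IsFree0 (k B : Type) [Field k] [NonUnitalRing B] [Module k B] : Prop :=
  ∃ (X : Type) (f : FreePlus k X →ₙₐ[k] B), Function.Bijective f

/-- `D_0` is axiomatizable within `D`, unital convention. -/
def Axiomatizable1 (k : Type) [Field k] : Prop :=
  ∃ T : (L1 k).Theory, ∀ (F : Type) [Ring F] [Algebra k F], IsFree1 k F →
    ∀ A : Subalgebra k F, (IsFree1 k A ↔ @Theory.Model (L1 k) F (str1 k (A : Set F)) T)

/-- `D_0` is axiomatizable within `D`, non-unital convention. -/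
def Axiomatizable0 (k : Type) [Field k] : Prop :=
  ∃ T : (L0 k).Theory, ∀ (F : Type) [NonUnitalRing F] [Module k F] [IsScalarTower k F F]
    [SMulCommClass k F F], IsFree0 k F →
    ∀ A : NonUnitalSubalgebra k F, (IsFree0 k A ↔ @Theory.Model (L0 k) F (str0 k (A : Set F)) T)

open Pool.Agent.H.MP_cfda27_lc

theorem map0 {k F G : Type} [Field k] [NonUnitalRing F] [Module k F] [NonUnitalRing G] [Module k G]
    (j : F →ₙₐ[k] G) {n : ℕ} (f : Fn0 k n) (x : Fin n → F) :
    j (interp0 f x) = interp0 f (j ∘ x) := by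
  cases f with
  | zero => exact map_zero j
  | neg => exact map_neg j _
  | smul c => exact j.map_smul' c _
  | add => exact map_add j _ _
  | sub => exact map_sub j _ _
  | mul => exact map_mul j _ _

theorem map1 {k F G : Type} [Field k] [Ring F] [Algebra k F] [Ring G] [Algebra k G]
    (j : F →ₐ[k] G) {n : ℕ} (f : Fn1 k n) (x : Fin n → F) :
    j (interp1 f x) = interp1 f (j ∘ x) := by
  cases f with
  | one => exact map_one j
  | old f => exact map0 (j : F →ₙₐ[k] G) f x

theorem mapP {F G : Type} (A : Set F) (B : Set G) (j : F → G) (h : ∀ x, j x ∈ B ↔ x ∈ A)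
    {n : ℕ} (r : RelP n) (x : Fin n → F) : interpP B r (j ∘ x) ↔ interpP A r x := by
  cases r
  exact h _

theorem result (k : Type) [Field k] : ¬ Axiomatizable1 k ∧ ¬ Axiomatizable0 k := by
  constructor
  · rintro ⟨T, hT⟩
    have h1 := (hT _ ⟨_, ⟨AlgEquiv.refl⟩⟩ (AA k (NN k))).1 ⟨_, small_free⟩
    let S1 := str1 k (AA k (NN k) : Set (FF k (NN k)))
    let S2 := str1 k (AA k (PP k) : Set (FF k (PP k)))
    let j : FF k (NN k) ↪[L1 k] FF k (PP k) :=
      { toFun := jj k
        inj' := jj_inj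
        map_fun' := fun f x => map1 (jj k) f x
        map_rel' := fun r x => mapP _ _ _ jj_mem r x }
    have h2 := (tv j (fun s b => by
      obtain ⟨θ, h1, -, h3, h4⟩ := homog s b
      exact ⟨{ toEquiv := θ.toEquiv
               map_fun' := fun f x => map1 θ.toAlgHom f x
               map_rel' := fun r x => mapP _ _ _ h1 r x }, h3, h4⟩) T).1 h1
    obtain ⟨Y, hY⟩ := (hT _ ⟨_, ⟨AlgEquiv.refl⟩⟩ (AA k (PP k))).2 h2
    exact big_not_free Y hY
  · rintro ⟨T, hT⟩
    have h1 := (hT (Plus k (Option (NN k))) ⟨_, NonUnitalAlgHom.id k _, Function.bijective_id⟩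
      (AP k (NN k))).1 ⟨_, small_free0⟩
    let S1 := str0 k (AP k (NN k) : Set (Plus k (Option (NN k))))
    let S2 := str0 k (AP k (PP k) : Set (Plus k (Option (PP k))))
    let j : Plus k (Option (NN k)) ↪[L0 k] Plus k (Option (PP k)) :=
      { toFun := jj0 k
        inj' := jj0_inj
        map_fun' := fun f x => map0 (jj0 k) f x
        map_rel' := fun r x => mapP _ _ _ jj0_mem r x }
    have h2 := (tv j (fun s b => by
      obtain ⟨θ, h0, h1, h3, h4⟩ := homog0 s b
      exact ⟨{ toEquiv := _root_.Equiv.ofBijective θ h0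
               map_fun' := fun f x => map0 θ f x
               map_rel' := fun r x => mapP _ _ _ h1 r x }, h3, h4⟩) T).1 h1
    obtain ⟨Y, f, hf⟩ := (hT (Plus k (Option (PP k)))
      ⟨_, NonUnitalAlgHom.id k _, Function.bijective_id⟩ (AP k (PP k))).2 h2
    exact big_not_free0 Y f hf

end Pool.Agent.Results.MP_cfda27_lc.NotAxiomatizable
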